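import Mathlib

/-! Weighted Kraft-McMillan inequality and a modular certificate for bayonet codes. -/

set_option autoImplicit false

namespace Pool.Agent.Helper38.TC

open InformationTheory Finset

section Kraft

variable {α : Type*} [Fintype α] [DecidableEq α]

/-- weight of a word -/
noncomputable def wt (μ : α → ℝ) (w : List α) : ℝ := (w.map μ).prod

omit [Fintype α] [DecidableEq α] in
lemma wt_nonneg {μ : α → ℝ} (h0 : ∀ x, 0 ≤ μ x) (w : List α) : 0 ≤ wt μ w := by
  refine List.prod_nonneg ?_
  intro a ha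
  obtain ⟨x, -, rfl⟩ := List.mem_map.1 ha
  exact h0 x

lemma sum_len_le {μ : α → ℝ} (h0 : ∀ x, 0 ≤ μ x) (h1 : ∑ x, μ x ≤ 1) (s : ℕ)
    (T : Finset (List α)) : ∑ x ∈ T with x.length = s, wt μ x ≤ 1 := by
  have hsub : T.filter (fun x => x.length = s) ⊆
      (Finset.univ : Finset (Fin s → α)).image List.ofFn := by
    intro x hx
    rw [Finset.mem_filter] at hx
    rw [Finset.mem_image]
    obtain ⟨_, rfl⟩ := hx
    exact ⟨x.get, Finset.mem_univ _, List.ofFn_get x⟩
  calc ∑ x ∈ T with x.length = s, wt μ x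
      ≤ ∑ x ∈ (Finset.univ : Finset (Fin s → α)).image List.ofFn, wt μ x :=
        Finset.sum_le_sum_of_subset_of_nonneg hsub (fun x _ _ => wt_nonneg h0 x)
    _ = ∑ f : Fin s → α, wt μ (List.ofFn f) :=
        Finset.sum_image (fun _ _ _ _ h => List.ofFn_injective h)
    _ = ∑ f : Fin s → α, ∏ i, μ (f i) := by
        refine Finset.sum_congr rfl fun f _ => ?_
        simp [wt, List.map_ofFn, List.prod_ofFn]
    _ = (∑ x, μ x) ^ s := (Fintype.sum_pow μ s).symm
    _ ≤ 1 := pow_le_one₀ (Finset.sum_nonneg fun x _ => h0 x) h1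

omit [Fintype α] [DecidableEq α] in
lemma wt_flatten (μ : α → ℝ) (l : List (List α)) :
    wt μ l.flatten = (l.map (wt μ)).prod := by
  induction l with
  | nil => simp [wt]
  | cons x l ih =>
    simp only [List.flatten_cons, List.map_cons, List.prod_cons]
    rw [← ih]
    simp [wt]

lemma pow_le_lin {μ : α → ℝ} (h0 : ∀ x, 0 ≤ μ x) (h1 : ∑ x, μ x ≤ 1) (S : Finset (List α))
    (h : UniquelyDecodable (S : Set (List α))) (r : ℕ) :
    (∑ w ∈ S, wt μ w) ^ r ≤ r * (S.sup List.length) + 1 := by
  classical
  set f : (Fin r → S) → List α := fun w => (List.ofFn (fun i => (w i).val)).flatten with hf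
  have hinj : Function.Injective f := by
    intro w₁ w₂ hflat
    funext i
    have := List.ofFn_injective (h _ _ (by simp) (by simp) hflat)
    exact Subtype.ext (congrArg (fun g => g i) this)
  set T : Finset (List α) := Finset.univ.image f with hT
  have hlen : ∀ x ∈ T, x.length ∈ Finset.range (r * (S.sup List.length) + 1) := by
    intro x hx
    obtain ⟨w, -, rfl⟩ := Finset.mem_image.1 hx
    rw [Finset.mem_range, Nat.lt_succ_iff]
    have hl : (f w).length = ∑ i : Fin r, (w i).val.length := by
      simp [hf, List.sum_ofFn]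
    rw [hl]
    exact (Finset.sum_le_sum (fun i _ => Finset.le_sup (f := List.length) (w i).prop)).trans_eq
      (by simp)
  calc (∑ w ∈ S, wt μ w) ^ r
      = ∑ w : Fin r → S, ∏ i : Fin r, wt μ (w i).val := by
        rw [← Finset.sum_coe_sort S]
        exact Fintype.sum_pow (f := fun c : S => wt μ c.val) r
    _ = ∑ w, wt μ (f w) := by
        refine Finset.sum_congr rfl fun w _ => ?_
        simp only [hf]
        rw [wt_flatten, List.map_ofFn, List.prod_ofFn]
        rfl
    _ = ∑ x ∈ T, wt μ x := (Finset.sum_image (fun _ _ _ _ hEq => hinj hEq)).symm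
    _ = ∑ s ∈ Finset.range (r * (S.sup List.length) + 1), ∑ x ∈ T with x.length = s, wt μ x :=
        (Finset.sum_fiberwise_of_maps_to hlen _).symm
    _ ≤ ∑ s ∈ Finset.range (r * (S.sup List.length) + 1), (1 : ℝ) :=
        Finset.sum_le_sum fun s _ => sum_len_le h0 h1 s T
    _ = r * (S.sup List.length) + 1 := by simp

/-- Weighted Kraft-McMillan inequality. -/
lemma kraft_wt {μ : α → ℝ} (h0 : ∀ x, 0 ≤ μ x) (h1 : ∑ x, μ x ≤ 1) (S : Finset (List α))
    (h : UniquelyDecodable (S : Set (List α))) : ∑ w ∈ S, wt μ w ≤ 1 := by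
  by_contra hK
  push Not at hK
  set K := ∑ w ∈ S, wt μ w with hKdef
  set L : ℝ := ((S.sup List.length : ℕ) : ℝ) with hL
  obtain ⟨r, hr⟩ := exists_nat_gt (2 * L / (K - 1) ^ 2)
  have hK1 : 0 < K - 1 := by linarith
  have h2 := pow_le_lin h0 h1 S h (2 * r)
  rw [← hKdef] at h2
  have h3 : (1 + (r : ℝ) * (K - 1)) ≤ K ^ r := by
    have := one_add_mul_le_pow (a := K - 1) (by linarith) r
    simpa using this
  have h4 : (1 + (r : ℝ) * (K - 1)) ^ 2 ≤ K ^ (2 * r) := by
    rw [mul_comm 2 r, pow_mul]
    exact pow_le_pow_left₀ (by positivity) h3 2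
  rw [div_lt_iff₀ (by positivity)] at hr
  have hr0 : (0 : ℝ) ≤ r := Nat.cast_nonneg r
  have hL0 : 0 ≤ L := Nat.cast_nonneg _
  push_cast at h2
  rw [← hL] at h2
  rcases Nat.eq_zero_or_pos r with h5 | h5
  · subst h5
    simp at hr
    linarith
  · have h6 : (1 : ℝ) ≤ r := by exact_mod_cast h5
    nlinarith [mul_le_mul_of_nonneg_left hr.le hr0, mul_pos (lt_of_lt_of_le one_pos h6) hK1,
      mul_pos (lt_of_lt_of_le one_pos h6) (sub_pos.2 hr)]

end Kraft

section Bayonet

variable {α : Type*}

/-- the word `a^p b a^q` -/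
def wd (a b : α) (p : ℕ × ℕ) : List α := List.replicate p.1 a ++ b :: List.replicate p.2 a

lemma cons_inj {a b : α} (hab : a ≠ b) : ∀ (p q : ℕ) (w w' : List α),
    List.replicate p a ++ b :: w = List.replicate q a ++ b :: w' → p = q ∧ w = w'
  | 0, 0, w, w', h => by simpa using h
  | 0, q + 1, w, w', h => by
      simp only [List.replicate_zero, List.nil_append, List.replicate_succ, List.cons_append,
        List.cons.injEq] at h
      exact absurd h.1.symm hab
  | p + 1, 0, w, w', h => by
      simp only [List.replicate_zero, List.nil_append, List.replicate_succ, List.cons_append,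
        List.cons.injEq] at h
      exact absurd h.1 hab
  | p + 1, q + 1, w, w', h => by
      simp only [List.replicate_succ, List.cons_append, List.cons.injEq, true_and] at h
      obtain ⟨h1, h2⟩ := cons_inj hab p q w w' h
      exact ⟨by rw [h1], h2⟩

lemma no_b {a b : α} (hab : a ≠ b) (p q : ℕ) (w : List α) :
    List.replicate p a ≠ List.replicate q a ++ b :: w := by
  intro h
  have h1 : b ∈ List.replicate p a := by rw [h]; simp
  exact hab (List.eq_of_mem_replicate h1).symm

lemma wd_inj {a b : α} (hab : a ≠ b) : Function.Injective (wd a b) := by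
  intro p q h
  obtain ⟨h1, h2⟩ := cons_inj hab _ _ _ _ h
  refine Prod.ext h1 ?_
  have := congrArg List.length h2
  simpa using this

/-- the code alphabet: `a^n` and the words `a^p b a^q`, `(p,q) ∈ P` -/
def Yset (a b : α) (n : ℕ) (P : Set (ℕ × ℕ)) : Set (List α) :=
  insert (List.replicate n a) (wd a b '' P)

lemma split {a b : α} {n : ℕ} {P : Set (ℕ × ℕ)} (l : List (List α))
    (hl : ∀ w ∈ l, w ∈ Yset a b n P) :
    (∃ s, l = List.replicate s (List.replicate n a)) ∨
    ∃ s, ∃ x ∈ P, ∃ l' : List (List α), (∀ w ∈ l', w ∈ Yset a b n P) ∧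
      l = List.replicate s (List.replicate n a) ++ wd a b x :: l' := by
  induction l with
  | nil => exact Or.inl ⟨0, rfl⟩
  | cons y l ih =>
    have hl' : ∀ w ∈ l, w ∈ Yset a b n P := fun w hw => hl w (List.mem_cons_of_mem _ hw)
    rcases hl y List.mem_cons_self with h | ⟨x, hx, h⟩
    · rcases ih hl' with ⟨s, hs⟩ | ⟨s, x, hx, l', hl'', hs⟩
      · left
        exact ⟨s + 1, by rw [hs, h, List.replicate_succ]⟩
      · right
        exact ⟨s + 1, x, hx, l', hl'', by rw [hs, h, List.replicate_succ]; rfl⟩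
    · right
      exact ⟨0, x, hx, l, hl', by rw [← h]; rfl⟩

lemma flat_rep {a : α} (n s : ℕ) :
    (List.replicate s (List.replicate n a)).flatten = List.replicate (s * n) a := by
  simp

lemma flat_split {a b : α} (n s : ℕ) (x : ℕ × ℕ) (l' : List (List α)) (u : ℕ) :
    List.replicate u a ++
      (List.replicate s (List.replicate n a) ++ wd a b x :: l').flatten =
    List.replicate (u + s * n + x.1) a ++ b :: (List.replicate x.2 a ++ l'.flatten) := by
  simp only [List.flatten_append, List.flatten_replicate_replicate, List.flatten_cons, wd,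
    List.replicate_add, List.append_assoc, List.cons_append]

variable {a b : α} {n : ℕ} {P : Set (ℕ × ℕ)} {T : ℤ → Prop}

lemma diverged (hab : a ≠ b) (hT0 : ∀ t, T t → ¬ (n : ℤ) ∣ t)
    (hTc : ∀ t t', T t → (n : ℤ) ∣ t - t' → T t')
    (h2 : ∀ x ∈ P, ∀ y ∈ P, T ((y.1 : ℤ) - x.1) → T ((x.2 : ℤ) - y.2)) :
    ∀ (N : ℕ) (l₁ l₂ : List (List α)), l₁.length ≤ N → (∀ w ∈ l₁, w ∈ Yset a b n P) →
      (∀ w ∈ l₂, w ∈ Yset a b n P) → ∀ u v : ℕ, T ((u : ℤ) - v) →
      List.replicate u a ++ l₁.flatten = List.replicate v a ++ l₂.flatten → False := by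
  intro N
  induction N with
  | zero =>
    intro l₁ l₂ hN hl₁ hl₂ u v hT h
    have : l₁ = [] := List.length_eq_zero_iff.1 (Nat.le_zero.1 hN)
    subst this
    rcases split l₂ hl₂ with ⟨s, hs⟩ | ⟨s, x, hx, l', hl'', hs⟩
    · subst hs
      have := congrArg List.length h
      simp at this
      refine hT0 _ hT ⟨s, ?_⟩
      push_cast [this]
      ring
    · subst hs
      rw [flat_split] at h
      simp only [List.flatten_nil, List.append_nil] at h
      exact no_b hab _ _ _ h
  | succ N ih =>
    intro l₁ l₂ hN hl₁ hl₂ u v hT h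
    rcases split l₁ hl₁ with ⟨s, hs⟩ | ⟨s, x, hx, l', hl', hs⟩
    · rcases split l₂ hl₂ with ⟨s', hs'⟩ | ⟨s', y, hy, l'', hl'', hs'⟩
      · subst hs; subst hs'
        have := congrArg List.length h
        simp at this
        refine hT0 _ hT ⟨(s' : ℤ) - s, ?_⟩
        have h3 : (u : ℤ) + s * n = v + s' * n := by exact_mod_cast this
        linear_combination h3
      · subst hs; subst hs'
        rw [flat_split, flat_rep, ← List.replicate_add] at h
        exact no_b hab _ _ _ h
    · rcases split l₂ hl₂ with ⟨s', hs'⟩ | ⟨s', y, hy, l'', hl'', hs'⟩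
      · subst hs; subst hs'
        rw [flat_split, flat_rep, ← List.replicate_add] at h
        exact no_b hab _ _ _ h.symm
      · subst hs; subst hs'
        rw [flat_split, flat_split] at h
        obtain ⟨h3, h4⟩ := cons_inj hab _ _ _ _ h
        have h5 : T ((y.1 : ℤ) - x.1) := by
          refine hTc _ _ hT ⟨(s' : ℤ) - s, ?_⟩
          have h6 : (u : ℤ) + s * n + x.1 = v + s' * n + y.1 := by exact_mod_cast h3
          linear_combination h6
        refine ih l' l'' ?_ hl' hl'' x.2 y.2 (h2 x hx y hy h5) h4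
        simp at hN
        omega

/-- The certificate lemma. -/
lemma ud_of_cert (hab : a ≠ b) (hn : 0 < n) (hT0 : ∀ t, T t → ¬ (n : ℤ) ∣ t)
    (hTc : ∀ t t', T t → (n : ℤ) ∣ t - t' → T t')
    (h1 : ∀ x ∈ P, ∀ y ∈ P, x ≠ y → (n : ℤ) ∣ (x.1 : ℤ) - y.1 → T ((x.2 : ℤ) - y.2))
    (h2 : ∀ x ∈ P, ∀ y ∈ P, T ((y.1 : ℤ) - x.1) → T ((x.2 : ℤ) - y.2)) :
    UniquelyDecodable (Yset a b n P) := by
  have key : ∀ (N : ℕ) (l₁ l₂ : List (List α)), l₁.length ≤ N →
      (∀ w ∈ l₁, w ∈ Yset a b n P) → (∀ w ∈ l₂, w ∈ Yset a b n P) →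
      l₁.flatten = l₂.flatten → l₁ = l₂ := by
    intro N
    induction N with
    | zero =>
      intro l₁ l₂ hN hl₁ hl₂ h
      have : l₁ = [] := List.length_eq_zero_iff.1 (Nat.le_zero.1 hN)
      subst this
      rcases split l₂ hl₂ with ⟨s, hs⟩ | ⟨s, x, hx, l', hl'', hs⟩
      · subst hs
        have := congrArg List.length h
        simp at this
        rcases this with h3 | h3
        · subst h3; rfl
        · omega
      · subst hs
        have h3 := flat_split (a := a) (b := b) n s x l' 0
        simp only [List.replicate_zero, List.nil_append] at h3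
        rw [h3] at h
        simp at h
    | succ N ih =>
      intro l₁ l₂ hN hl₁ hl₂ h
      rcases split l₁ hl₁ with ⟨s, hs⟩ | ⟨s, x, hx, l', hl', hs⟩
      · rcases split l₂ hl₂ with ⟨s', hs'⟩ | ⟨s', y, hy, l'', hl'', hs'⟩
        · subst hs; subst hs'
          have := congrArg List.length h
          simp at this
          rcases this with h3 | h3
          · rw [h3]
          · omega
        · subst hs; subst hs'
          have h3 := flat_split (a := a) (b := b) n s' y l'' 0
          simp only [List.replicate_zero, List.nil_append] at h3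
          rw [h3, flat_rep] at h
          exact (no_b hab _ _ _ h).elim
      · rcases split l₂ hl₂ with ⟨s', hs'⟩ | ⟨s', y, hy, l'', hl'', hs'⟩
        · subst hs; subst hs'
          have h3 := flat_split (a := a) (b := b) n s x l' 0
          simp only [List.replicate_zero, List.nil_append] at h3
          rw [h3, flat_rep] at h
          exact (no_b hab _ _ _ h.symm).elim
        · subst hs; subst hs'
          have h3 := flat_split (a := a) (b := b) n s x l' 0
          have h3' := flat_split (a := a) (b := b) n s' y l'' 0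
          simp only [List.replicate_zero, List.nil_append] at h3 h3'
          rw [h3, h3'] at h
          obtain ⟨h4, h5⟩ := cons_inj hab _ _ _ _ h
          by_cases hxy : x = y
          · subst hxy
            have h6 : s = s' := by
              have : s * n = s' * n := by omega
              exact Nat.eq_of_mul_eq_mul_right hn this
            subst h6
            have h7 := ih l' l'' (by simp at hN; omega) hl' hl'' (List.append_cancel_left h5)
            rw [h7]
          · exfalso
            have h6 : (n : ℤ) ∣ (x.1 : ℤ) - y.1 := by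
              refine ⟨(s' : ℤ) - s, ?_⟩
              have h6 : (0 : ℤ) + s * n + x.1 = 0 + s' * n + y.1 := by exact_mod_cast h4
              linear_combination h6
            exact diverged hab hT0 hTc h2 l'.length l' l'' le_rfl hl' hl'' x.2 y.2
              (h1 x hx y hy hxy h6) h5
  intro l₁ l₂ hl₁ hl₂ h
  exact key l₁.length l₁ l₂ le_rfl hl₁ hl₂ h

end Bayonet

section Count

lemma wt_rep {k : ℕ} (μ : Fin k → ℝ) (a : Fin k) (n : ℕ) :
    wt μ (List.replicate n a) = μ a ^ n := by
  simp [wt]

lemma wt_wd {k : ℕ} (μ : Fin k → ℝ) (a b : Fin k) (p : ℕ × ℕ) :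
    wt μ (wd a b p) = μ b * μ a ^ (p.1 + p.2) := by
  simp [wt, wd, pow_add]
  ring

/-- A code consisting of `a^n` and of words in `a*ba*` has at most `n` of the latter. -/
lemma card_le {k : ℕ} {a b : Fin k} (hab : a ≠ b) {n : ℕ} (F : Finset (ℕ × ℕ))
    (h : UniquelyDecodable (Yset a b n (F : Set (ℕ × ℕ)))) : F.card ≤ n := by
  classical
  have key : ∀ t : ℝ, t ∈ Set.Ioo (0 : ℝ) 1 → ∑ p ∈ F, t ^ (p.1 + p.2) ≤ ∑ i ∈ range n, t ^ i := by
    intro t ht
    set μ : Fin k → ℝ := fun x => if x = a then t else if x = b then 1 - t else 0 with hμ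
    have h0 : ∀ x, 0 ≤ μ x := by
      intro x
      simp only [hμ]
      split_ifs
      · exact ht.1.le
      · linarith [ht.2]
      · exact le_rfl
    have h1 : ∑ x, μ x ≤ 1 := by
      have : ∑ x, μ x = ∑ x, ((if x = a then t else 0) + (if x = b then 1 - t else 0)) := by
        refine Finset.sum_congr rfl fun x _ => ?_
        simp only [hμ]
        by_cases hxa : x = a
        · subst hxa; simp [hab]
        · simp [hxa]
      rw [this, Finset.sum_add_distrib]
      simp
    have hμa : μ a = t := by simp [hμ]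
    have hμb : μ b = 1 - t := by simp [hμ, hab.symm]
    set S : Finset (List (Fin k)) := insert (List.replicate n a) (F.image (wd a b)) with hS
    have hcoe : (S : Set (List (Fin k))) = Yset a b n (F : Set (ℕ × ℕ)) := by
      simp [hS, Yset]
    have h2 := kraft_wt h0 h1 S (by rw [hcoe]; exact h)
    have hni : List.replicate n a ∉ F.image (wd a b) := by
      intro hm
      obtain ⟨p, -, hp⟩ := Finset.mem_image.1 hm
      exact no_b hab _ _ _ hp.symm
    rw [hS, Finset.sum_insert hni, Finset.sum_image (fun _ _ _ _ hh => wd_inj hab hh)] at h2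
    simp only [wt_rep, wt_wd, hμa, hμb] at h2
    rw [← Finset.mul_sum] at h2
    have h3 := geom_sum_mul_neg t n
    have h4 : 0 < 1 - t := by linarith [ht.2]
    have h5 : (1 - t) * ∑ p ∈ F, t ^ (p.1 + p.2) ≤ (1 - t) * ∑ i ∈ range n, t ^ i := by
      linarith
    exact le_of_mul_le_mul_left h5 h4
  have hc1 : Continuous fun t : ℝ => ∑ p ∈ F, t ^ (p.1 + p.2) := by fun_prop
  have hc2 : Continuous fun t : ℝ => ∑ i ∈ range n, t ^ i := by fun_prop
  have hlim : (∑ p ∈ F, (1 : ℝ) ^ (p.1 + p.2)) ≤ ∑ i ∈ range n, (1 : ℝ) ^ i := by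
    have hne : (nhdsWithin (1 : ℝ) (Set.Ioo 0 1)).NeBot := by
      rw [← mem_closure_iff_nhdsWithin_neBot, closure_Ioo (by norm_num)]
      simp
    refine le_of_tendsto_of_tendsto (f := fun t : ℝ => ∑ p ∈ F, t ^ (p.1 + p.2))
      (g := fun t : ℝ => ∑ i ∈ range n, t ^ i) (b := nhdsWithin (1 : ℝ) (Set.Ioo 0 1))
      (hc1.continuousAt.tendsto.mono_left nhdsWithin_le_nhds)
      (hc2.continuousAt.tendsto.mono_left nhdsWithin_le_nhds) ?_
    exact eventually_nhdsWithin_of_forall key
  simp at hlim
  exact_mod_cast hlim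

end Count

end Pool.Agent.Helper38.TC
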