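import Mathlib
import Pool.Agent.Helper38.TC.Base

/-! A 72-complete bayonet code with 40 words of length at most 39, and its uniform blow-ups. -/

set_option autoImplicit false

namespace Pool.Agent.Helper38.TC

open InformationTheory Finset

/-- the pairs `(i,j)` of the words `a^i b a^j` -/
def X0 : List (ℕ × ℕ) :=
  [(0, 8), (0, 17), (0, 24), (0, 33), (1, 16), (1, 25), (2, 0), (2, 8), (2, 9), (3, 16), (3,
   17), (3, 25), (4, 0), (4, 8), (4, 9), (5, 16), (5, 25), (6, 0), (6, 8), (6, 9), (6, 17),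
   (7, 16), (7, 25), (18, 17), (21, 17), (24, 0), (24, 8), (24, 9), (24, 17), (25, 1), (25,
   64), (26, 0), (26, 8), (26, 9), (27, 1), (27, 64), (28, 0), (28, 8), (28, 9), (29, 1),
   (29, 64), (30, 0), (30, 8), (30, 9), (31, 1), (31, 64), (36, 17), (39, 17), (42, 17), (48,
   0), (48, 8), (48, 9), (49, 16), (49, 25), (50, 0), (50, 8), (50, 9), (51, 16), (51, 25),
   (52, 0), (52, 8), (52, 9), (53, 16), (53, 25), (54, 0), (54, 8), (54, 9), (54, 17), (55,
   16), (55, 25), (57, 17), (60, 17)]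

/-- the residues modulo 72 that occur as defects -/
def S0 : List ℕ := [1, 7, 8, 9, 16, 17, 23, 25, 31, 32, 40, 41, 47, 49, 55, 56, 63, 64, 65, 71]

lemma X0_length : X0.length = 72 := by decide

lemma X0_nodup : X0.Nodup := by decide +kernel

lemma S0_pos : ∀ s ∈ S0, 0 < s ∧ s < 72 := by decide

lemma X0_lt : ∀ x ∈ X0, x.1 < 72 ∧ x.2 < 72 := by decide

lemma X0_chk : ∀ x ∈ X0, ∀ y ∈ X0, x ≠ y →
    ((y.1 + 72 - x.1) % 72 = 0 ∨ (y.1 + 72 - x.1) % 72 ∈ S0) → (x.2 + 72 - y.2) % 72 ∈ S0 := by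
  decide +kernel

lemma X0_short : ((X0.toFinset).filter (fun p => p.1 + p.2 + 1 ≤ 39)).card = 40 := by
  decide +kernel

lemma X0_card : X0.toFinset.card = 72 := by
  rw [List.toFinset_card_of_nodup X0_nodup, X0_length]

attribute [irreducible] X0 S0

/-- blow-up of a pair -/
def blow (m : ℕ) (p : (ℕ × ℕ) × ℕ) : ℕ × ℕ := (m * p.1.1 + p.2, m * p.1.2 + (m - 1 - p.2))

/-- the set of pairs of the blown up code -/
def Xm (m : ℕ) : Finset (ℕ × ℕ) := (X0.toFinset ×ˢ range m).image (blow m)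

lemma rem_eq {m r r' : ℕ} (hr : r < m) (hr' : r' < m) (h : (m : ℤ) ∣ (r : ℤ) - r') : r = r' := by
  obtain ⟨c, hc⟩ := h
  have h1 : (r : ℤ) - r' < m := by omega
  have h2 : -(m : ℤ) < (r : ℤ) - r' := by omega
  have hm : (0 : ℤ) < m := by omega
  have hc1 : c < 1 := by
    by_contra hcc
    push Not at hcc
    nlinarith
  have hc2 : -1 < c := by
    by_contra hcc
    push Not at hcc
    nlinarith
  have : c = 0 := by omega
  subst this
  omega

lemma blow_inj (m : ℕ) : Set.InjOn (blow m) ((X0.toFinset ×ˢ range m : Finset _) : Set _) := by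
  rintro ⟨⟨i, j⟩, r⟩ h ⟨⟨i', j'⟩, r'⟩ h' he
  simp only [coe_product, Set.mem_prod, coe_range, Set.mem_Iio] at h h'
  simp only [blow, Prod.mk.injEq] at he
  obtain ⟨h1, h2⟩ := he
  have hm : (0 : ℤ) < m := by omega
  have hr : r = r' := by
    refine rem_eq h.2 h'.2 ⟨(i' : ℤ) - i, ?_⟩
    have : (m : ℤ) * i + r = m * i' + r' := by exact_mod_cast h1
    linear_combination this
  subst hr
  have h3 : m * i = m * i' := by omega
  have h4 : m * j = m * j' := by omega
  have hm' : 0 < m := by omega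
  rw [Nat.eq_of_mul_eq_mul_left hm' h3, Nat.eq_of_mul_eq_mul_left hm' h4]

lemma Xm_card (m : ℕ) : (Xm m).card = 72 * m := by
  rw [Xm, Finset.card_image_of_injOn (blow_inj m), card_product, card_range, X0_card]

lemma blow_sum {m : ℕ} {p : (ℕ × ℕ) × ℕ} (h : p.2 < m) :
    (blow m p).1 + (blow m p).2 + 1 = m * (p.1.1 + p.1.2 + 1) := by
  simp only [blow]
  have : m * (p.1.1 + p.1.2 + 1) = m * p.1.1 + m * p.1.2 + m := by ring
  omega

lemma Xm_short (m : ℕ) : 40 * m ≤ ((Xm m).filter (fun p => p.1 + p.2 + 1 ≤ 39 * m)).card := by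
  have h1 : ((X0.toFinset.filter (fun p => p.1 + p.2 + 1 ≤ 39)) ×ˢ range m).card = 40 * m := by
    rw [card_product, card_range, X0_short]
  rw [← h1, ← Finset.card_image_of_injOn (f := blow m)
    (s := (X0.toFinset.filter (fun p => p.1 + p.2 + 1 ≤ 39)) ×ˢ range m)
    ((blow_inj m).mono (by
      intro p hp
      simp only [coe_product, Set.mem_prod, coe_filter, Set.mem_ofPred_eq, coe_range] at hp ⊢
      exact ⟨hp.1.1, hp.2⟩))]
  refine Finset.card_le_card ?_
  intro q hq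
  obtain ⟨p, hp, rfl⟩ := Finset.mem_image.1 hq
  rw [mem_product, mem_filter, mem_range] at hp
  rw [mem_filter]
  refine ⟨Finset.mem_image.2 ⟨p, ?_, rfl⟩, ?_⟩
  · rw [mem_product, mem_range]
    exact ⟨hp.1.1, hp.2⟩
  · rw [blow_sum hp.2, mul_comm 39 m]
    exact Nat.mul_le_mul_left m hp.1.2

/-- defects of the blown up code -/
def Tm (m : ℕ) (t : ℤ) : Prop := ∃ s ∈ S0, ((72 * m : ℕ) : ℤ) ∣ t - m * s

lemma dn {u v s : ℕ} (hu : u < 72) (hv : v < 72) (hs : s < 72) (h : (72 : ℤ) ∣ ((u : ℤ) - v) - s) :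
    (u + 72 - v) % 72 = s := by
  omega

lemma dn' {u v : ℕ} (hu : u < 72) (hv : v < 72) :
    (72 : ℤ) ∣ ((u : ℤ) - v) - ((u + 72 - v) % 72 : ℕ) := by
  omega

lemma Xm_ud {k : ℕ} {a b : Fin k} (hab : a ≠ b) {m : ℕ} (hm : 0 < m) :
    UniquelyDecodable (Yset a b (72 * m) (Xm m : Set (ℕ × ℕ))) := by
  have hmz : (m : ℤ) ≠ 0 := by positivity
  have core : ∀ i j r i' j' r' s : ℕ, (i, j) ∈ X0 → (i', j') ∈ X0 → r < m → r' < m →
      ((i, j), r) ≠ ((i', j'), r') → (s = 0 ∨ s ∈ S0) →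
      ((72 * m : ℕ) : ℤ) ∣ (((m * i' + r' : ℕ) : ℤ) - ((m * i + r : ℕ) : ℤ)) - m * s →
      Tm m (((m * j + (m - 1 - r) : ℕ) : ℤ) - ((m * j' + (m - 1 - r') : ℕ) : ℤ)) := by
    intro i j r i' j' r' s hx hy hr hr' hne hs hd
    have hs72 : s < 72 := by
      rcases hs with rfl | hs
      · norm_num
      · exact (S0_pos s hs).2
    push_cast at hd
    have hrr : r' = r := by
      refine rem_eq hr' hr ?_
      have h1 : (m : ℤ) ∣ (m * i' + r') - (m * i + r) - m * s := dvd_trans ⟨72, by ring⟩ hd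
      have h2 : (m : ℤ) ∣ m * ((i' : ℤ) - i - s) := Dvd.intro _ rfl
      have h3 := dvd_sub h1 h2
      have h4 : ((m : ℤ) * i' + r') - (m * i + r) - m * s - m * ((i' : ℤ) - i - s) = r' - r := by
        ring
      rwa [h4] at h3
    subst hrr
    have h5 : (72 : ℤ) ∣ ((i' : ℤ) - i) - s := by
      have h6 : (m : ℤ) * 72 ∣ m * (((i' : ℤ) - i) - s) := by
        have h7 : ((m : ℤ) * i' + r') - (m * i + r') - m * s = m * (((i' : ℤ) - i) - s) := by ring
        rw [h7, mul_comm (72 : ℤ)] at hd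
        exact hd
      exact (mul_dvd_mul_iff_left hmz).1 h6
    have hxl := X0_lt _ hx
    have hyl := X0_lt _ hy
    have h8 := dn hyl.1 hxl.1 hs72 h5
    have hne' : (i, j) ≠ (i', j') := by
      intro h
      exact hne (by rw [h])
    have h9 := X0_chk (i, j) hx (i', j') hy hne' (by
      rcases hs with rfl | hs
      · left; exact h8
      · right
        rw [h8]
        exact hs)
    refine ⟨(j + 72 - j') % 72, h9, ?_⟩
    obtain ⟨c, hc⟩ := dn' hxl.2 hyl.2
    refine ⟨c, ?_⟩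
    have h10 : (((m * j + (m - 1 - r') : ℕ) : ℤ) - ((m * j' + (m - 1 - r') : ℕ) : ℤ)) =
        m * ((j : ℤ) - j') := by
      push_cast
      ring
    rw [h10]
    simp only at hc
    push_cast at hc ⊢
    linear_combination (m : ℤ) * hc
  have mem : ∀ x ∈ (Xm m : Set (ℕ × ℕ)), ∃ i j r : ℕ, (i, j) ∈ X0 ∧ r < m ∧
      x = (m * i + r, m * j + (m - 1 - r)) := by
    intro x hx
    obtain ⟨⟨⟨i, j⟩, r⟩, hp, rfl⟩ := Finset.mem_image.1 (Finset.mem_coe.1 hx)
    rw [mem_product, mem_range] at hp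
    exact ⟨i, j, r, by simpa using hp.1, hp.2, rfl⟩
  refine ud_of_cert (T := Tm m) hab (by positivity) ?_ ?_ ?_ ?_
  · rintro t ⟨s, hs, h⟩ h'
    have h1 : ((72 * m : ℕ) : ℤ) ∣ m * s := by
      have := dvd_sub h' h
      simpa using this
    obtain ⟨hs0, hs1⟩ := S0_pos s hs
    push_cast at h1
    have h2 : (m : ℤ) * 72 ∣ m * s := by rwa [mul_comm (72 : ℤ)] at h1
    have h3 : (72 : ℤ) ∣ s := (mul_dvd_mul_iff_left hmz).1 h2
    omega
  · rintro t t' ⟨s, hs, h⟩ h'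
    refine ⟨s, hs, ?_⟩
    have := dvd_sub h h'
    have e : t - m * s - (t - t') = t' - m * s := by ring
    rwa [e] at this
  · intro x hx y hy hxy hd
    obtain ⟨i, j, r, h1, h2, rfl⟩ := mem x hx
    obtain ⟨i', j', r', h1', h2', rfl⟩ := mem y hy
    refine core i j r i' j' r' 0 h1 h1' h2 h2' ?_ (Or.inl rfl) ?_
    · intro h
      simp only [Prod.mk.injEq] at h
      obtain ⟨⟨rfl, rfl⟩, rfl⟩ := h
      exact hxy rfl
    · have := dvd_neg.2 hd
      have e : -(((m * i + r : ℕ) : ℤ) - ((m * i' + r' : ℕ) : ℤ)) =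
        (((m * i' + r' : ℕ) : ℤ) - ((m * i + r : ℕ) : ℤ)) - m * (0 : ℕ) := by
        push_cast
        ring
      simp only at this
      rwa [e] at this
  · rintro x hx y hy ⟨s, hs, hd⟩
    obtain ⟨i, j, r, h1, h2, rfl⟩ := mem x hx
    obtain ⟨i', j', r', h1', h2', rfl⟩ := mem y hy
    refine core i j r i' j' r' s h1 h1' h2 h2' ?_ (Or.inr hs) hd
    intro h
    simp only [Prod.mk.injEq] at h
    obtain ⟨⟨rfl, rfl⟩, rfl⟩ := h
    obtain ⟨hs0, hs1⟩ := S0_pos s hs
    simp only [sub_self, zero_sub, dvd_neg] at hd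
    push_cast at hd
    have h2 : (m : ℤ) * 72 ∣ m * s := by rwa [mul_comm (72 : ℤ)] at hd
    have h3 : (72 : ℤ) ∣ s := (mul_dvd_mul_iff_left hmz).1 h2
    omega

end Pool.Agent.Helper38.TC
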