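import Mathlib
import Pool.Agent.Helper38.TC.Base
import Pool.Agent.Helper38.TC.Data

/-! Complete bayonet codes that violate the triangle inequality. -/

set_option autoImplicit false

namespace Pool.Agent.Helper38.TC.ViolationOld

open Pool.Agent.Helper38.TC in
/-- For every `m ≥ 1` there is a set `X` of exactly `72 m` words `a^i b a^j` such that
`X ∪ {a^(72m)}` is a code, no further word of `a*ba*` can be added to `X`, and at least `40 m`
words of `X` have length at most `39 m`. -/
theorem result (k : ℕ) (a b : Fin k) (hab : a ≠ b) (m : ℕ) (hm : 0 < m) :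
    ∃ X : Finset (List (Fin k)),
      (∀ x ∈ X, ∃ i j : ℕ, x = List.replicate i a ++ b :: List.replicate j a) ∧
      InformationTheory.UniquelyDecodable
        (insert (List.replicate (72 * m) a) (X : Set (List (Fin k)))) ∧
      X.card = 72 * m ∧
      (∀ Z : Set (List (Fin k)),
        (∀ z ∈ Z, ∃ i j : ℕ, z = List.replicate i a ++ b :: List.replicate j a) →
        (X : Set (List (Fin k))) ⊆ Z →
        InformationTheory.UniquelyDecodable (insert (List.replicate (72 * m) a) Z) →
        Z = (X : Set (List (Fin k)))) ∧
      40 * m ≤ (X.filter (fun x => x.length ≤ 39 * m)).card := by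
  classical
  have hcard : ((Xm m).image (wd a b)).card = 72 * m := by
    rw [Finset.card_image_of_injective _ (wd_inj hab), Xm_card]
  refine ⟨(Xm m).image (wd a b), ?_, ?_, hcard, ?_, ?_⟩
  · intro x hx
    obtain ⟨p, -, rfl⟩ := Finset.mem_image.1 hx
    exact ⟨p.1, p.2, rfl⟩
  · have := Xm_ud hab hm
    rw [Yset] at this
    rw [Finset.coe_image]
    exact this
  · intro Z hZ hXZ hud
    refine (Set.Subset.antisymm hXZ ?_).symm
    intro z hz
    by_contra hzX
    set F : Finset (List (Fin k)) := insert z ((Xm m).image (wd a b)) with hF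
    have hFZ : (F : Set (List (Fin k))) ⊆ Z := by
      rw [hF, Finset.coe_insert]
      exact Set.insert_subset hz hXZ
    have hFcard : F.card = 72 * m + 1 := by
      rw [hF, Finset.card_insert_of_notMem (by exact_mod_cast hzX), hcard]
    -- choose pairs
    have hex : ∀ x ∈ F, ∃ p : ℕ × ℕ, wd a b p = x := by
      intro x hx
      obtain ⟨i, j, h⟩ := hZ x (hFZ hx)
      exact ⟨(i, j), h.symm⟩
    set G : Finset (ℕ × ℕ) := F.preimage (wd a b) ((wd_inj hab).injOn) with hG
    have hGF : G.image (wd a b) = F := by
      ext x
      rw [Finset.mem_image]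
      constructor
      · rintro ⟨p, hp, rfl⟩
        exact Finset.mem_preimage.1 hp
      · intro hx
        obtain ⟨p, hp⟩ := hex x hx
        exact ⟨p, Finset.mem_preimage.2 (by rw [hp]; exact hx), hp⟩
    have hGcard : G.card = 72 * m + 1 := by
      rw [← hFcard, ← hGF, Finset.card_image_of_injective _ (wd_inj hab)]
    have hle := card_le hab (n := 72 * m) G (by
      intro l₁ l₂ h₁ h₂ h
      refine hud l₁ l₂ ?_ ?_ h
      · intro w hw
        rcases h₁ w hw with h' | ⟨p, hp, h'⟩
        · exact Or.inl h'
        · right
          rw [← h']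
          exact hFZ (Finset.mem_preimage.1 hp)
      · intro w hw
        rcases h₂ w hw with h' | ⟨p, hp, h'⟩
        · exact Or.inl h'
        · right
          rw [← h']
          exact hFZ (Finset.mem_preimage.1 hp))
    omega
  · refine (Xm_short m).trans ?_
    rw [← Finset.card_image_of_injective _ (wd_inj hab)]
    refine Finset.card_le_card ?_
    intro x hx
    obtain ⟨p, hp, rfl⟩ := Finset.mem_image.1 hx
    rw [Finset.mem_filter] at hp ⊢
    refine ⟨Finset.mem_image_of_mem _ hp.1, ?_⟩
    have : (wd a b p).length = p.1 + p.2 + 1 := by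
      simp [wd]
      ring
    rw [this]
    exact hp.2

end Pool.Agent.Helper38.TC.ViolationOld
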